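import Pool.Agent.H38.OP.Final3

/-!
# Waring's problem with 2k+1 summands: genuine k-th powers and values of one polynomial
# x^k + a_(p-1) x^(k-1) + ... + a_0 x^(k-p) with few generic coefficients
-/

set_option autoImplicit false

open MeasureTheory

theorem Pool.H38.Old.OnePolynomial.result :
    -- the general theorem
    (∀ k p u n v g h : ℕ, 1 ≤ p → p < k → u + v ≤ g → p * n + 1 ≤ h →
      (1 - 1 / (k : ℝ)) ^ u < (1 - p / k) * ((k - p - 1) / (k - p)) ^ n →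
      (2 * k - p) / (k - p) <
        ((p : ℝ) + 1) * (p * (1 - p / k) * (1 - (((k : ℝ) - p - 1) / (k - p)) ^ n) - (1 - 1 / (k : ℝ)) ^ u) →
      (2 * k - p) / (k - p) * (1 - 1 / (k : ℝ)) ^ v < 1 →
      ∃ c : ℝ, 0 < c ∧ ∀ᵐ a : Fin p → ℝ, ∃ T : ℝ, ∀ τ : ℝ, T ≤ τ → ∃ (y : Fin g → ℕ) (x : Fin h → ℕ),
        |∑ i, (y i : ℝ) ^ k + ∑ i, ((x i : ℝ) ^ k + ∑ j : Fin p, a j * (x i : ℝ) ^ (k - p + (j : ℕ))) - τ| <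
          τ ^ (-c)) ∧
    -- it applies to 2k+1 summands, more than half of them genuine powers: ten coefficients, every k ≥ 191
    (∀ k : ℕ, 191 ≤ k → ∃ g h : ℕ, g + h = 2 * k + 1 ∧ 2 * k + 1 < 2 * g ∧
      ∃ c : ℝ, 0 < c ∧ ∀ᵐ a : Fin 10 → ℝ, ∃ T : ℝ, ∀ τ : ℝ, T ≤ τ → ∃ (y : Fin g → ℕ) (x : Fin h → ℕ),
        |∑ i, (y i : ℝ) ^ k + ∑ i, ((x i : ℝ) ^ k + ∑ j : Fin 10, a j * (x i : ℝ) ^ (k - 10 + (j : ℕ))) - τ| <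
          τ ^ (-c)) ∧
    -- and seventeen coefficients, every k ≥ 92
    (∀ k : ℕ, 92 ≤ k → ∃ g h : ℕ, g + h = 2 * k + 1 ∧ 2 * k + 1 < 2 * g ∧
      ∃ c : ℝ, 0 < c ∧ ∀ᵐ a : Fin 17 → ℝ, ∃ T : ℝ, ∀ τ : ℝ, T ≤ τ → ∃ (y : Fin g → ℕ) (x : Fin h → ℕ),
        |∑ i, (y i : ℝ) ^ k + ∑ i, ((x i : ℝ) ^ k + ∑ j : Fin 17, a j * (x i : ℝ) ^ (k - 17 + (j : ℕ))) - τ| <
          τ ^ (-c)) :=
  ⟨Pool.H38.OP.final_II, Pool.H38.OP.cor_F, Pool.H38.OP.cor_E⟩
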