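import Pool.Agent.H38.BG.AMain

/-!
The exact order of growth in Malle's conjecture over all sufficiently large base fields, for
transitive groups whose elements of least index lie in the second centre. The definitions used in
the statement are in `Pool/Agent/H38/ML/Spec.lean`.
-/

open H38.ML.Spec

theorem Pool.Agent.Results.MP_b39724_nt.SecondCentre.result
    (n : ℕ) (hn : 2 ≤ n) (G : Subgroup (Equiv.Perm (Fin n)))
    (hG : MulAction.IsPretransitive G (Fin n))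
    (hZ : ∀ g : G, g ≠ 1 → ind (g : Equiv.Perm (Fin n)) = indG G →
      ∀ h k : G, k * (g * h * g⁻¹ * h⁻¹) = g * h * g⁻¹ * h⁻¹ * k) :
    ∃ K₀ : IntermediateField ℚ (AlgebraicClosure ℚ), NumberField K₀ ∧
      ∀ K : IntermediateField ℚ (AlgebraicClosure ℚ), K₀ ≤ K → ∀ _ : NumberField K,
        (∃ c : ℝ, 0 < c ∧ ∃ B₀ : ℝ, ∀ B : ℝ, B₀ ≤ B →
          ((⌈c * B ^ (1 / (indG G : ℝ)) *
              Real.log B ^ (betaAll K (AlgebraicClosure ℚ) G - 1)⌉₊ : ℕ) : ℕ∞) ≤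
            nK K (AlgebraicClosure ℚ) G B) ∧
        (Group.IsNilpotent G → ∃ C : ℝ, 0 < C ∧ ∃ B₀ : ℝ, ∀ B : ℝ, B₀ ≤ B →
          nK K (AlgebraicClosure ℚ) G B ≤
            ((⌊C * B ^ (1 / (indG G : ℝ)) *
              Real.log B ^ (betaAll K (AlgebraicClosure ℚ) G - 1)⌋₊ : ℕ) : ℕ∞)) := by
  obtain ⟨K₀, hK₀, h⟩ := H38.BG.amain hn G hG hZ
  refine ⟨K₀, hK₀, fun K hK hKf => ?_⟩
  obtain ⟨⟨c, B₀, hc, hB⟩, hup⟩ := h K hK hKf
  refine ⟨⟨c, hc, B₀, hB⟩, fun hnil => ?_⟩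
  obtain ⟨C, B₁, hC, hB₁⟩ := hup hnil
  refine ⟨C, hC, B₁, fun B hB => ?_⟩
  obtain ⟨k, hk, hle⟩ := hB₁ B hB
  rw [hk]
  exact Nat.cast_le.2 (Nat.le_floor hle)
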