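import Pool.Agent.H38.TD.TdAll
import Pool.Agent.H38.ML.SpecBridge
import Pool.Agent.H36.RT.Final

/-!
The lower bound of the conjectured order in Malle's conjecture over all sufficiently large base
fields, for groups with a nonabelian two-layer `p`-group on top. The definitions used in the
statement are in `Pool/Agent/H38/ML/Spec.lean`.
-/

open H38.ML.Spec

theorem Pool.Agent.Results.MP_b39724_nt.TwoLayerPGroups.result
    (n : ℕ) (hn : 2 ≤ n) (G : Subgroup (Equiv.Perm (Fin n)))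
    (hG : MulAction.IsPretransitive G (Fin n)) (p : ℕ)
    (hp : (Nat.card G = n ∧ p = n.minFac) ∨ (p.Prime ∧ p ∣ Nat.card G ∧
      ∀ g : G, orderOf g = p ↔ g ≠ 1 ∧ ind (g : Equiv.Perm (Fin n)) = indG G))
    (N : Subgroup G) (hN : N.Normal) (htower : GoodTower N) (hNp : ¬ p ∣ Nat.card N)
    (P F : Type) [Group P] [Group F] [Finite P] [Finite F] (φ : G ⧸ N ≃* P × F)
    (hP : IsPGroup p P) (hFp : ¬ p ∣ Nat.card F)
    (A : Subgroup P) (hA : A.index = p) (hAc : ∀ a ∈ A, ∀ b ∈ A, a * b = b * a)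
    (hgen : Subgroup.center P ⊔ Subgroup.closure {g : P | g ^ p = 1} = ⊤) :
    ∃ K₀ : IntermediateField ℚ (AlgebraicClosure ℚ), NumberField K₀ ∧
      ∀ K : IntermediateField ℚ (AlgebraicClosure ℚ), K₀ ≤ K → ∀ _ : NumberField K,
        ∃ c : ℝ, 0 < c ∧ ∃ B₀ : ℝ, ∀ B : ℝ, B₀ ≤ B →
          ((⌈c * B ^ (1 / (indG G : ℝ)) *
              Real.log B ^ (betaAll K (AlgebraicClosure ℚ) G - 1)⌉₊ : ℕ) : ℕ∞) ≤
            nK K (AlgebraicClosure ℚ) G B := by
  have hp' : p.Prime ∧ p ∣ Nat.card G ∧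
      ∀ g : G, orderOf g = p ↔ g ≠ 1 ∧ ind (g : Equiv.Perm (Fin n)) = indG G := by
    rcases hp with ⟨h1, rfl⟩ | h
    · exact ⟨Nat.minFac_prime (by omega), by rw [h1]; exact Nat.minFac_dvd n,
        H38.TD.reg_least hn G hG h1⟩
    · exact h
  obtain ⟨K₀, hK₀, h⟩ := H38.TD.td_all hn G hG hp'.1 hp'.2.1 hp'.2.2 N hN
    (H38.ML.goodTower_of_spec htower) hNp P F φ hP hFp
    (H38.ML.realizable_of_spec (H36.RT.realizable_all F)) A hA hAc hgen
  refine ⟨K₀, NumberField.of_module_finite ℚ K₀, fun K hK hKf => ?_⟩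
  obtain ⟨c, hc, B₀, hB⟩ := h K hK hKf.to_finiteDimensional
  exact ⟨c, hc, B₀, fun B hBB => (hB B hBB).trans (H38.ML.nK_le_spec hn G K B)⟩
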